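import Pool.Agent.Q54.ZR.Stm

/-!
# Project ZR: the assembly for graphs without isolated vertices
-/

set_option autoImplicit false

namespace Pool.Agent.Q217.ZR

open Finset Pool.Agent.Q54.ZR

theorem core : S_ADD → S_EGZ → S_FT → S_C1 → S_PP → S_C2 → S_STAR → S_KTOP → S_CORE := by
  intro hadd hegz hft hc1 hpp hc2 hstar hktop α V _ _ _ _ G _ c hc hdeg hiso hcard hne
  classical
  have hflat : ∀ W : Finset V, Fintype.card α + 2 ≤ W.card → 3 ≤ W.card → Flat c W →
      ∃ φ : α → V, Function.Injective φ ∧ S G c φ = 0 := by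
    intro W h1 h2 h3
    obtain ⟨h, hh⟩ := hadd V c W hc h2 h3
    obtain ⟨φ, hφ, -, h0⟩ := hegz α V G c W h hc hdeg hh h1
    exact ⟨φ, hφ, h0⟩
  rcases isEmpty_or_nonempty α with hem | hnem
  · refine ⟨fun a => (hem.false a).elim, fun a => (hem.false a).elim, ?_⟩
    simp [S]
  by_cases htop : ∀ a b : α, a ≠ b → G.Adj a b
  · -- complete graphs
    have hadj : ∀ a b : α, G.Adj a b ↔ a ≠ b := fun a b => ⟨fun h => h.ne, htop a b⟩
    have hn2 : 2 ≤ Fintype.card α := by
      obtain ⟨a⟩ := hnem
      obtain ⟨b, hb⟩ := hiso a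
      exact Fintype.one_lt_card_iff.2 ⟨a, b, hb.ne⟩
    have hdeg' : (Fintype.card α : ZMod 3) * ((Fintype.card α : ZMod 3) - 1) = 0 := by
      have h1 : ∀ a : α, ∑ b, (if G.Adj a b then (1 : ZMod 3) else 0) =
          (Fintype.card α : ZMod 3) - 1 := by
        intro a
        have h2 : ∀ b, (if G.Adj a b then (1 : ZMod 3) else 0) = 1 - (if a = b then 1 else 0) := by
          intro b
          by_cases h : a = b
          · subst h; simp
          · simp [hadj, h]
        rw [Finset.sum_congr rfl fun b _ => h2 b, Finset.sum_sub_distrib]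
        simp
      have h3 := hdeg
      unfold Deg3 at h3
      rw [Finset.sum_congr rfl fun a _ => h1 a] at h3
      rw [Finset.sum_const, Finset.card_univ, nsmul_eq_mul] at h3
      exact h3
    have hn4 : 4 ≤ Fintype.card α := by
      by_contra hlt
      have h3 : Fintype.card α ≠ 3 := fun h => hne ⟨h, htop⟩
      have h2 : Fintype.card α = 2 := by omega
      rw [h2] at hdeg'
      revert hdeg'
      decide
    obtain ⟨s, hs, hF⟩ := hktop V c (Fintype.card α) hc hn4 hcard hdeg'
    let e : α ≃ s := Fintype.equivOfCardEq (by simp [hs])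
    refine ⟨fun a => (e a : V), fun a b h => e.injective (Subtype.ext h), ?_⟩
    have himg : (univ.image fun a => (e a : V)) = s := by
      ext x
      simp only [mem_image, mem_univ, true_and]
      constructor
      · rintro ⟨a, rfl⟩
        exact (e a).2
      · intro hx
        exact ⟨e.symm ⟨x, hx⟩, by simp⟩
    have h5 := hft α V c (fun a => (e a : V)) (fun a b h => e.injective (Subtype.ext h))
    rw [himg, hF] at h5
    rw [← h5]
    unfold S
    congr 1
    refine Finset.sum_congr rfl fun a _ => Finset.sum_congr rfl fun b _ => ?_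
    exact if_congr (by rw [hadj]; rfl) rfl rfl
  · push Not at htop
    obtain ⟨u0, v0, huv0, hnadj0⟩ := htop
    by_cases h2 : ∃ u v w1 : α, u ≠ v ∧ ¬ G.Adj u v ∧ G.Adj u w1 ∧ ¬ G.Adj v w1
    · obtain ⟨u, v, w1, h3, h4, h5, h6⟩ := h2
      obtain ⟨w2, h7⟩ := hiso v
      exact hc1 α V G c hc hdeg (by omega) u v w1 w2 h3 h4 h5 h6 h7
    have hN : ∀ u v w : α, u ≠ v → ¬ G.Adj u v → G.Adj u w → G.Adj v w := by
      intro u v w h3 h4 h5
      by_contra h6
      exact h2 ⟨u, v, w, h3, h4, h5, h6⟩
    by_cases h3 : ∃ u v w1 w2 : α, u ≠ v ∧ ¬ G.Adj u v ∧ w1 ≠ w2 ∧ G.Adj u w1 ∧ G.Adj u w2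
    · obtain ⟨u, v, w1, w2, huv, hnuv, hw, h4, h5⟩ := h3
      have h6 : G.Adj v w1 := hN u v w1 huv hnuv h4
      have h7 : G.Adj v w2 := hN u v w2 huv hnuv h5
      have huw1 : u ≠ w1 := h4.ne
      have huw2 : u ≠ w2 := h5.ne
      have hvw1 : v ≠ w1 := h6.ne
      have hvw2 : v ≠ w2 := h7.ne
      by_cases hm : ∃ m : α, m ≠ u ∧ m ≠ v ∧ m ≠ w1 ∧ m ≠ w2
      · obtain ⟨m, hmu, hmv, hmw1, hmw2⟩ := hm
        have hnodup : [u, v, w1, w2, m].Nodup := by
          simp [huv, huw1, huw2, hvw1, hvw2, hw, hmu.symm, hmv.symm, hmw1.symm, hmw2.symm]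
        have hcard5 : 5 ≤ Fintype.card α := by
          have h8 := hnodup.length_le_card
          simpa using h8
        by_cases hnz : NZ G c
        · have hPP : PP c := by
            refine hpp α V G c hc (by omega) hnz u v w1 w2 m hnodup hnuv h4 h5 h6 h7 ?_
            by_cases hum : G.Adj u m
            · exact Or.inl ⟨hum, hN u v m huv hnuv hum⟩
            · refine Or.inr ⟨hum, ?_, ?_, ?_⟩
              · intro hvm
                exact hum (hN v u m huv.symm (fun h => hnuv h.symm) hvm)
              · exact (hN u m w1 hmu.symm hum h4).symm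
              · exact (hN u m w2 hmu.symm hum h5).symm
          obtain ⟨W, hW1, hW2⟩ := hc2 V c (Fintype.card α) hc hcard5 hcard hPP
          exact hflat W hW1 (by omega) hW2
        · unfold NZ at hnz
          push Not at hnz
          exact hnz
      · exfalso
        push Not at hm
        have huniv : (univ : Finset α) = {u, v, w1, w2} := by
          ext m
          simp only [mem_univ, mem_insert, mem_singleton, true_iff]
          by_contra hcon
          push Not at hcon
          exact hcon.2.2.2 (hm m hcon.1 hcon.2.1 hcon.2.2.1)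
        have h8 := hdeg
        unfold Deg3 at h8
        have hsum : ∀ f : α → ZMod 3, ∑ a, f a = f u + (f v + (f w1 + f w2)) := by
          intro f
          rw [huniv, sum_insert (by simp [huv, huw1, huw2]), sum_insert (by simp [hvw1, hvw2]),
            sum_insert (by simp [hw]), sum_singleton]
        rw [hsum] at h8
        simp only [hsum] at h8
        have hnvu : ¬ G.Adj v u := fun h => hnuv h.symm
        by_cases hww : G.Adj w1 w2
        · simp only [hnuv, hnvu, h4, h5, h6, h7, h4.symm, h5.symm, h6.symm, h7.symm, hww, hww.symm,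
            SimpleGraph.irrefl, if_true, if_false] at h8
          revert h8
          decide
        · have hww' : ¬ G.Adj w2 w1 := fun h => hww h.symm
          simp only [hnuv, hnvu, h4, h5, h6, h7, h4.symm, h5.symm, h6.symm, h7.symm, hww, hww',
            SimpleGraph.irrefl, if_true, if_false] at h8
          revert h8
          decide
    · push Not at h3
      obtain ⟨w, hw⟩ := hiso u0
      have hu0 : ∀ b, G.Adj u0 b → b = w := by
        intro b hb
        by_contra hbw
        exact h3 u0 v0 b w huv0 hnadj0 hbw hb hw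
      have hall : ∀ a, a ≠ w → ∀ b, G.Adj a b ↔ b = w := by
        intro a haw b
        by_cases ha : a = u0
        · subst ha
          exact ⟨hu0 b, fun h => h ▸ hw⟩
        · have hna : ¬ G.Adj u0 a := fun h => haw (hu0 a h)
          have hna' : ¬ G.Adj a u0 := fun h => hna h.symm
          exact ⟨fun h => hu0 b (hN a u0 b ha hna' h), fun h => hN u0 a b (Ne.symm ha) hna (h ▸ hw)⟩
      refine hstar α V G c w hc hdeg ?_ (by omega)
      intro a b
      by_cases haw : a = w
      · subst haw
        constructor
        · intro h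
          exact Or.inl ⟨rfl, h.ne.symm⟩
        · rintro (⟨-, h⟩ | ⟨-, h⟩)
          · exact ((hall b h a).2 rfl).symm
          · exact absurd rfl h
      · rw [hall a haw b]
        constructor
        · intro h
          exact Or.inr ⟨h, haw⟩
        · rintro (⟨h, -⟩ | ⟨h, -⟩)
          · exact absurd h haw
          · exact h

end Pool.Agent.Q217.ZR
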